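import Pool.Agent.H11.ZDE.Stmts

/-!
# Module GR of project ZDE: gradedness, covers and the diamond property
-/

set_option linter.unusedSimpArgs false

namespace Pool.Agent.H58.ZDE

open Pool.Agent.H11.ZDE Pool.Agent.H11.ZDE.RootLat

variable {B W : Type*} [Group W] {M : CoxeterMatrix B} {cs : CoxeterSystem M W}
  {L : Type*} [AddCommGroup L] {R : RootLat L} (G : Geo cs R)

/-- Bruhat comparable elements are equal or separated by length -/
theorem bru_len {u w : W} (h : Bru cs u w) : u = w ∨ cs.length u < cs.length w := by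
  induction h with
  | refl => exact Or.inl rfl
  | tail _ hs ih =>
    obtain ⟨t, ht, rfl, hl⟩ := hs
    right
    rcases ih with rfl | ih
    · exact hl
    · exact ih.trans hl

theorem rho_T {b : L} (hb : R.Q b b = 2) (x : W) (v : L) :
    G.ρ (x * G.T b) v = G.ρ x (v - R.Q v b • b) := by
  rw [map_mul, Module.End.mul_apply, G.ρT b hb, r_apply]

theorem rho_Tk {b : L} (hb : R.Q b b = 2) (x : W) (v : L) {k : ℤ} (hk : R.Q v b = k) :
    G.ρ (x * G.T b) v = G.ρ x (v - k • b) := by
  rw [rho_T G hb, hk]

theorem sgn (w : W) {a : L} (ha : R.Q a a = 2) : R.P (G.ρ w a) ∨ R.P (-(G.ρ w a)) :=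
  R.P_root _ (by rw [G.iso, ha])

theorem T_mul_eq {b c b' c' : L} (hb : R.Q b b = 2) (hc : R.Q c c = 2) (hb' : R.Q b' b' = 2)
    (hc' : R.Q c' c' = 2) (h : R.r b * R.r c = R.r b' * R.r c') :
    G.T b * G.T c = G.T b' * G.T c' := by
  apply G.inj
  rw [map_mul, map_mul, G.ρT b hb, G.ρT c hc, G.ρT b' hb', G.ρT c' hc', h]

theorem T_inj {b c : L} (hb : R.Q b b = 2) (hc : R.Q c c = 2) (pb : R.P b) (pc : R.P c)
    (h : G.T b = G.T c) : b = c := by
  have h1 : R.r b = R.r c := by rw [← G.ρT b hb, ← G.ρT c hc, h]
  have h2 : R.r b b = R.r c b := by rw [h1]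
  rw [R.r_self hb, r_apply] at h2
  have h3 : R.Q (-b) b = R.Q (b - R.Q b c • c) b := by rw [← h2]
  rw [R.Q_neg, R.Q_sub, R.Q_smul, hb, R.Q_comm c b] at h3
  have h4 : R.Q b c = 2 ∨ R.Q b c = -2 := by
    have : (R.Q b c - 2) * (R.Q b c + 2) = 0 := by linarith
    rcases mul_eq_zero.1 this with h | h
    · left; linarith
    · right; linarith
  rcases h4 with h4 | h4
  · exact R.eq_of_two hb hc h4
  · exfalso
    have := R.eq_neg_of hb hc h4
    subst this
    exact R.P_neg pc pb

/-- a right descent in terms of the representation -/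
theorem descent_neg {z : W} {i : B} (h : cs.length (z * cs.simple i) < cs.length z) :
    R.P (-(G.ρ z (G.α i))) := by
  have hS : G.α i ∈ R.S := by rw [← G.αS]; exact Set.mem_range_self i
  rcases sgn G z (R.S_root _ hS) with h1 | h1
  · exfalso
    have := G.lt z (G.α i) (R.S_root _ hS) (R.S_pos _ hS) h1
    rw [G.Tα] at this
    omega
  · exact h1

theorem grad : GradStmt G := by
  have key : ∀ n : ℕ, ∀ y b, cs.length (y * G.T b) = n → R.Q b b = 2 → R.P b → R.P (G.ρ y b) →
      cs.length y + 1 < cs.length (y * G.T b) →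
      ∃ c d, R.Q c c = 2 ∧ R.P c ∧ R.Q d d = 2 ∧ R.P d ∧ b = c + d ∧ R.P (G.ρ y c) ∧
        R.P (G.ρ y d) := by
    intro n
    induction n using Nat.strong_induction_on with
    | _ n IH =>
    intro y b hn hb pb hyb hlt
    have hz1 : y * G.T b ≠ 1 := by
      intro h1
      rw [h1, cs.length_one] at hlt
      omega
    obtain ⟨i, hi⟩ := cs.exists_rightDescent_of_ne_one hz1
    have hS : G.α i ∈ R.S := by rw [← G.αS]; exact Set.mem_range_self i
    have hi' : cs.length (y * G.T b * cs.simple i) < cs.length (y * G.T b) := hi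
    have hneg := descent_neg G hi'
    set s := G.α i with hs
    have qs : R.Q s s = 2 := R.S_root _ hS
    have ps : R.P s := R.S_pos _ hS
    have hsimple : G.T s = cs.simple i := G.Tα i
    have hbs : b ≠ s := by
      intro h
      rw [h, hsimple] at hlt
      rcases cs.length_mul_simple y i with h1 | h1 <;> omega
    rw [rho_T G hb] at hneg
    have qbs := R.Q_cases' qs hb ps pb (Ne.symm hbs)
    have prs : R.P (b - R.Q b s • s) := R.S_refl s hS b hb pb hbs
    rcases sgn G y qs with hys | hys
    · -- case rho(y) s positive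
      rcases qbs with h | h | h
      · exfalso
        rw [h] at hneg
        have h2 : R.P (G.ρ y s + G.ρ y b) := R.P_add hys hyb
        refine R.P_neg h2 (R.P_cast hneg ?_)
        rw [← map_add]
        congr 2
        module
      · exfalso
        rw [h] at hneg
        refine R.P_neg hys (R.P_cast hneg ?_)
        congr 2
        module
      · rw [R.Q_comm b s, h] at prs
        rw [h] at hneg
        refine ⟨s, b - s, qs, ps, ?_, ?_, ?_, hys, ?_⟩
        · rw [R.Q_sub, R.Q_subr, R.Q_subr, hb, qs, h, R.Q_comm b s, h]; norm_num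
        · exact R.P_cast prs (by module)
        · abel
        · refine R.P_cast hneg ?_
          rw [← map_neg]
          congr 1
          module
    · -- case rho(y) s negative
      have hy' : cs.length (y * cs.simple i) < cs.length y := by
        have := G.gt y s qs ps hys
        rwa [hsimple] at this
      set b' := b - R.Q b s • s with hb'
      have qb' : R.Q b' b' = 2 := by
        have := R.Q_r qs b b
        rw [r_apply, hb] at this
        exact this
      have hmul : y * cs.simple i * G.T b' = y * G.T b * cs.simple i := by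
        have h1 : G.T s * G.T b' = G.T b * G.T s := by
          apply T_mul_eq G qs qb' hb qs
          rw [R.conj (b := s) (c := b) qs]
          rfl
        rw [← hsimple, mul_assoc, h1, mul_assoc]
      have hρ' : ∀ v, G.ρ (y * cs.simple i) v = G.ρ y (v - R.Q v s • s) := by
        intro v
        rw [← hsimple, rho_T G qs]
      have hrr : ∀ v : L, (v - R.Q v s • s) - R.Q (v - R.Q v s • s) s • s = v := by
        intro v
        rw [R.Q_sub, R.Q_smul, qs]
        module
      have hyb' : R.P (G.ρ (y * cs.simple i) b') := by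
        rw [hρ', hb', hrr]
        exact hyb
      have hl1 : cs.length (y * cs.simple i) + 1 = cs.length y := by
        rcases cs.length_mul_simple y i with h1 | h1 <;> omega
      have hl2 : cs.length (y * G.T b * cs.simple i) + 1 = cs.length (y * G.T b) := by
        rcases cs.length_mul_simple (y * G.T b) i with h1 | h1 <;> omega
      obtain ⟨c', d', qc', pc', qd', pd', hsum, hc', hd'⟩ :=
        IH (cs.length (y * cs.simple i * G.T b')) (by rw [hmul]; omega) (y * cs.simple i) b' rfl
          qb' prs hyb' (by rw [hmul]; omega)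
      have qcd' : R.Q c' d' = -1 := by
        have h1 := qb'
        rw [hsum, R.Q_add, R.Q_addr, R.Q_addr, qc', qd', R.Q_comm d' c'] at h1
        linarith
      have hbb' : b = b' - R.Q b' s • s := (hrr b).symm
      -- neither part is `s`
      have hexcl : ∀ e f : L, R.Q e f = -1 → b' = e + f → e = s →
          R.P (G.ρ (y * cs.simple i) f) → False := by
        intro e f hef hbef hes hf
        subst hes
        have h1 : R.Q b' s = 1 := by
          rw [hbef, R.Q_add, qs, R.Q_comm f, hef]; norm_num
        have h2 : b = f := by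
          rw [hbb', h1, hbef]; module
        rw [← h2, hρ'] at hf
        have h3 : R.Q b s = -1 := by rw [h2, R.Q_comm, hef]
        rw [R.Q_comm s b, h3] at hneg
        rw [h3] at hf
        refine R.P_neg hf (R.P_cast hneg ?_)
        congr 2
        module
      have hc's : c' ≠ s := fun h => hexcl c' d' qcd' hsum h hd'
      have hd's : d' ≠ s := fun h =>
        hexcl d' c' (by rw [R.Q_comm, qcd']) (by rw [hsum]; abel) h hc'
      refine ⟨c' - R.Q c' s • s, d' - R.Q d' s • s, ?_, R.S_refl s hS c' qc' pc' hc's, ?_,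
        R.S_refl s hS d' qd' pd' hd's, ?_, ?_, ?_⟩
      · have := R.Q_r qs c' c'
        rw [r_apply, qc'] at this
        exact this
      · have := R.Q_r qs d' d'
        rw [r_apply, qd'] at this
        exact this
      · conv_lhs => rw [hbb', hsum, R.Q_add]
        module
      · rw [← hρ']; exact hc'
      · rw [← hρ']; exact hd'
  intro y b hb pb hyb hlt
  exact key _ y b rfl hb pb hyb hlt

/-- one step of Bruhat order -/
theorem bru_step {x : W} {b : L} (hb : R.Q b b = 2) (pb : R.P b) (h : R.P (G.ρ x b)) :
    Bru cs x (x * G.T b) :=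
  Relation.ReflTransGen.single ⟨G.T b, (G.refl _).2 ⟨b, hb, pb, rfl⟩, rfl, G.lt x b hb pb h⟩

theorem cov_of {x y : W} (h : G.Jn x y) (hl : cs.length y = cs.length x + 1) : Cov cs x y := by
  obtain ⟨b, hb, pb, rfl⟩ := h
  refine ⟨Relation.ReflTransGen.single ⟨G.T b, (G.refl _).2 ⟨b, hb, pb, rfl⟩, rfl, by omega⟩,
    fun h => ?_, fun z h1 h2 => ?_⟩
  · rw [← h] at hl
    omega
  · rcases bru_len h1 with rfl | h1
    · exact Or.inl rfl
    · rcases bru_len h2 with rfl | h2
      · exact Or.inr rfl
      · omega

theorem cov_stmt : CovStmt G := by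
  intro x y
  constructor
  · rintro ⟨hxy, hne, hmin⟩
    rcases Relation.ReflTransGen.cases_tail hxy with h | ⟨a, hxa, t, ht, hya, hl⟩
    · exact absurd h.symm hne
    · have hay : Bru cs a y := Relation.ReflTransGen.single ⟨t, ht, hya, hl⟩
      have hax : a = x := by
        rcases hmin a hxa hay with h | h
        · exact h
        · rw [h] at hl
          omega
      subst hax
      obtain ⟨b, hb, pb, rfl⟩ := (G.refl t).1 ht
      subst hya
      refine ⟨⟨b, hb, pb, rfl⟩, ?_⟩
      have hab : R.P (G.ρ a b) := by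
        rcases sgn G a hb with h | h
        · exact h
        · have := G.gt a b hb pb h
          omega
      by_contra hlen
      obtain ⟨c, d, qc, pc, qd, pd, hsum, hc, hd⟩ := grad G a b hb pb hab (by omega)
      have qcd : R.Q c d = -1 := by
        have h1 := hb
        rw [hsum, R.Q_add, R.Q_addr, R.Q_addr, qc, qd, R.Q_comm d c] at h1
        linarith
      -- chain a, a T_c, a T_c T_d, a T_c T_d T_c
      have h1 : R.P (G.ρ (a * G.T c) d) := by
        rw [rho_Tk G qc a d (k := -1) (by rw [R.Q_comm, qcd])]
        refine R.P_cast hab ?_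
        rw [hsum]; congr 1; module
      have h2 : R.P (G.ρ (a * G.T c * G.T d) c) := by
        rw [rho_Tk G qd _ c (k := -1) qcd, rho_Tk G qc a _ (k := 1)
          (by rw [R.Q_sub, R.Q_smul, R.Q_comm d c, qcd, qc]; norm_num)]
        refine R.P_cast hd ?_
        congr 1; module
      have h3 : G.T c * G.T d = G.T b * G.T c := by
        apply T_mul_eq G qc qd hb qc
        rw [R.swm qc qcd, hsum]
      have hTc : G.T c * G.T c = 1 := by
        apply G.inj
        rw [map_mul, G.ρT c qc, R.r_r qc, map_one]
      have h4 : a * G.T c * G.T d * G.T c = a * G.T b := by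
        rw [mul_assoc a, h3, mul_assoc, mul_assoc, hTc, mul_one]
      have b1 : Bru cs a (a * G.T c) := bru_step G qc pc hc
      have b2 : Bru cs (a * G.T c) (a * G.T b) := by
        rw [← h4]
        exact (bru_step G qd pd h1).trans (bru_step G qc pc h2)
      have l1 := G.lt a c qc pc hc
      have l2 := G.lt _ d qd pd h1
      have l3 := G.lt _ c qc pc h2
      rw [h4] at l3
      rcases hmin _ b1 b2 with h | h
      · rw [h] at l1
        omega
      · have h5 := congrArg cs.length h
        omega
  · rintro ⟨h1, h2⟩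
    exact cov_of G h1 h2

theorem diamond (G : Geo cs R) : DiamondStmt cs := by
  intro x y z hxy hyz
  obtain ⟨⟨b, hb, pb, rfl⟩, l1⟩ := (cov_stmt G _ _).1 hxy
  obtain ⟨⟨c, hc, pc, rfl⟩, l2⟩ := (cov_stmt G _ _).1 hyz
  -- it is enough to find a middle element
  have fin : ∀ e f : L, R.Q e e = 2 → R.P e → R.Q f f = 2 → R.P f → e ≠ b → R.P (G.ρ x e) →
      R.P (G.ρ (x * G.T e) f) → R.r b * R.r c = R.r e * R.r f →
      ∃ a, a ≠ x * G.T b ∧ Cov cs x a ∧ Cov cs a (x * G.T b * G.T c) := by
    intro e f he pe hf pf hne h1 h2 h3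
    have h4 : x * G.T b * G.T c = x * G.T e * G.T f := by
      rw [mul_assoc, mul_assoc, T_mul_eq G hb hc he hf h3]
    have l3 := G.lt x e he pe h1
    have l4 := G.lt _ f hf pf h2
    rw [← h4] at l4
    refine ⟨x * G.T e, fun h => hne ?_, cov_of G ⟨e, he, pe, rfl⟩ (by omega),
      cov_of G ⟨f, hf, pf, h4⟩ (by omega)⟩
    exact T_inj G he hb pe pb (mul_left_cancel h)
  have pos1 : R.P (G.ρ x b) := by
    rcases sgn G x hb with h | h
    · exact h
    · have := G.gt x b hb pb h
      omega
  have pos2 : R.P (G.ρ (x * G.T b) c) := by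
    rcases sgn G (x * G.T b) hc with h | h
    · exact h
    · have := G.gt _ c hc pc h
      omega
  have hbc : b ≠ c := by
    rintro rfl
    have hTb : G.T b * G.T b = 1 := by
      apply G.inj
      rw [map_mul, G.ρT b hb, R.r_r hb, map_one]
    rw [mul_assoc, hTb, mul_one] at l2
    omega
  rcases R.Q_cases' hb hc pb pc hbc with h | h | h
  · -- inner product -1
    rw [rho_Tk G hb x c (k := -1) (by rw [R.Q_comm, h])] at pos2
    have qbc : R.Q (b + c) (b + c) = 2 := by
      rw [R.Q_add, R.Q_addr, R.Q_addr, hb, hc, R.Q_comm c b, h]; norm_num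
    rcases sgn G x hc with hxc | hxc
    · refine fin c (b + c) hc pc qbc (R.P_add pb pc) (Ne.symm hbc) hxc ?_ (R.swm' hc h)
      rw [rho_Tk G hc x _ (k := 1) (by rw [R.Q_add, h, hc]; norm_num)]
      exact R.P_cast pos1 (by congr 1; module)
    · refine fin (b + c) b qbc (R.P_add pb pc) hb pb ?_ (R.P_cast pos2 (by congr 1; module)) ?_
        (R.swm hb h)
      · intro h1
        have : c = 0 := by simpa using h1
        exact R.P_ne pc this
      · rw [rho_Tk G qbc x _ (k := 1) (by rw [R.Q_addr, h, hb]; norm_num)]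
        refine R.P_cast hxc ?_
        rw [← map_neg]; congr 1; module
  · -- inner product 0
    rw [rho_Tk G hb x c (k := 0) (by rw [R.Q_comm, h])] at pos2
    refine fin c b hc pc hb pb (Ne.symm hbc) (R.P_cast pos2 (by congr 1; module)) ?_ (R.sw0 h)
    rw [rho_Tk G hc x b (k := 0) h]
    exact R.P_cast pos1 (by congr 1; module)
  · -- inner product 1
    rw [rho_Tk G hb x c (k := 1) (by rw [R.Q_comm, h])] at pos2
    have qd : R.Q (b - c) (b - c) = 2 := by
      rw [R.Q_sub, R.Q_subr, R.Q_subr, hb, hc, R.Q_comm c b, h]; norm_num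
    have qd' : R.Q (c - b) (c - b) = 2 := by
      rw [R.Q_sub, R.Q_subr, R.Q_subr, hb, hc, R.Q_comm c b, h]; norm_num
    have hxc : R.P (G.ρ x c) := by
      refine R.P_cast (R.P_add pos2 pos1) ?_
      rw [← map_add]; congr 1; module
    rcases R.P_root _ qd with hd | hd
    · refine fin c (b - c) hc pc qd hd (Ne.symm hbc) hxc ?_ ?_
      · rw [rho_Tk G hc x _ (k := -1) (by rw [R.Q_sub, h, hc]; norm_num)]
        exact R.P_cast pos1 (by congr 1; module)
      · rw [R.conj (b := c) (c := b) hc, r_apply, h, one_smul]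
    · have hd' : R.P (c - b) := R.P_cast hd (by abel)
      refine fin (c - b) b qd' hd' hb pb ?_ (R.P_cast pos2 (by congr 1; module)) ?_ ?_
      · intro h1
        have h2 : R.Q b c = 4 := by
          have : c = b + b := sub_eq_iff_eq_add.1 h1
          rw [this, R.Q_addr, hb]; norm_num
        omega
      · rw [rho_Tk G qd' x _ (k := -1) (by rw [R.Q_subr, h, hb]; norm_num)]
        exact R.P_cast hxc (by congr 1; module)
      · rw [R.conj (b := b) (c := c - b) hb, r_apply, R.Q_sub, R.Q_comm c b, h, hb]
        have : c - b - (1 - 2 : ℤ) • b = c := by module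
        rw [this]

end Pool.Agent.H58.ZDE
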